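import Pool.Agent.Helper3.FE.FreeEdge

/-!
# The free edge theorem for fixed panels of chambers which are not fixed
-/

set_option autoImplicit false

namespace Pool.Agent.Helper3.EV

open Real Pool.Agent.Helper9.TD Pool.Agent.Helper3.FE

section

variable {S C : Type} {M : CoxeterMatrix S} {A : S → C → C → Prop} {F : S → C → Prop}

/-- **The free edge theorem.** -/
theorem free_edge' {lam : M.Group → S → ℝ} {ph : M.Group → ℝ} {w : C → M.Group}
    (hA : ∀ s, Equivalence (A s)) (hC : CoxF M) (hH : HtF M lam ph) (hw : WL M A w)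
    
    (hfar : ∀ s t n c d, s ≠ t → M s t ≠ 0 → Al A s t n c d → F t c → F (tp s t n) d →
      M s t ≤ n + 1) : FE M A F := by
  intro K hfin hne K1 K0
  by_contra hcon
  push Not at hcon
  obtain ⟨⟨c, s, t⟩, hc⟩ := hne
  have hHt : Ht M M.simple lam ph := by
    refine ⟨fun w s t => ?_, hH.ph_mul, fun w s => ?_, ?_, ?_⟩
    · rw [hH.lam_mul, bf]
      ring
    · by_cases hd : Ds M w s
      · exact ((hH.neg w s).2 hd).ne
      · exact ((hH.pos w s).2 hd).ne'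
    · intro w s t u h1 h2 h3 _ _ h4
      exact hC.three w s t u h1 h3 h2 ((hH.neg _ _).1 h4.1) ((hH.neg _ _).1 h4.2.1)
        ((hH.neg _ _).1 h4.2.2)
    · intro w s t u h1 h2 h3 h4 h5 h6
      refine hH.kap w s t u h1 h3 h2 h4 h5 ?_
      rw [bf, bf]
      exact ⟨by linarith [h6.1], by linarith [h6.2]⟩
  refine no_kites hHt w (An A) F (fun c s t => (c, s, t) ∈ K) ?_ (fun c s t h => K0 c s t h)
    (fun c s t h => K1 c s t h) ?_ ?_ ?_ ?_ c s t hc
  · rintro s c d ⟨h1, h2⟩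
    rcases hw s c d h1 h2 with h | h
    · exact Or.inl h
    · exact Or.inr ⟨h.1, (hH.neg _ _).2 h.2⟩
  · intro c s t h
    obtain ⟨u, h1, h2⟩ := (hcon c s t h).1
    exact ⟨u, h2, h1⟩
  · intro c s t h
    by_cases hFs : F s c
    · exact Or.inl hFs
    · obtain ⟨d, h1, h2, h3⟩ := (hcon c s t h).2 hFs
      exact Or.inr ⟨d, ⟨h1, fun h4 => h3 h4.symm⟩, h2⟩
  · refine (hfin.image fun p => (w p.1, p.2.1, p.2.2)).subset ?_
    rintro ⟨v, s, t⟩ ⟨c, h1, h2⟩
    exact ⟨(c, s, t), h1, Prod.ext h2 rfl⟩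
  · intro x y a b c hxy h0 ha hb
    obtain ⟨d, h1, h2⟩ := arm_al hb
    obtain ⟨s, t, e, h3, h4, h5, h6⟩ := arm_rev hA ha h1 h2
    have h7 : s ≠ t ∧ M s t = M x y := by
      rcases h3 with ⟨rfl, rfl⟩ | ⟨rfl, rfl⟩
      · exact ⟨hxy, rfl⟩
      · exact ⟨hxy.symm, M.symmetric _ _⟩
    have h8 := hfar s t (b + a) e d h7.1 (by rw [h7.2]; exact h0) h4 h5 h6
    rw [h7.2] at h8
    omega

end

end Pool.Agent.Helper3.EV
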