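import Pool.Agent.Helper3.EV.Ep
import Pool.Agent.Helper3.EV.FreeEdge
import Pool.Agent.Helper63.TD.Main
import Pool.Agent.Helper63.TD.Sch
import Pool.Agent.Helper9.TD.ExW

/-!
# Groups generated by elements with fixed points, arbitrary stabilizers
-/

set_option autoImplicit false

namespace Pool.Agent.Helper3.EV

open Relation Pool.Agent.Helper29.BA Pool.Agent.Helper29.PA Pool.Agent.Helper3.FJ
  Pool.Agent.Helper3.FJ.Cpx Pool.Agent.Helper9.TD Pool.Agent.Helper3.LT Pool.Agent.Helper3.FE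
  Pool.Agent.Helper13.EV
open Pool.Agent.Helper3.TD (cn pn_eqv)

section

variable {S V : Type} {M : CoxeterMatrix S} {X : Cpx V} {τ : V → Finset S} {N : ℕ} {R : Type}
  [Group R] [MulAction R V]

/-- The chamber system of the quotient is simply connected. -/
theorem quo_sch' (hN : NiceT' M X τ N R) (hX : X.SimplyConn)
    (hR : Subgroup.closure {r : R | ∃ x : V, r • x = x} = ⊤) : SCh M (Pq' hN) :=
  Pool.Agent.Helper63.TD.sch (quoT_tk' hN.toActsT' hN.tk (gir_quo' hN))
    (quoT_simplyConn' hN.toActsT' hN.tk hX hR)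

/-- Free edges. -/
theorem nice_hasFree (hN : NiceT' M X τ N R) (hM : TwoDim M) (hX : X.SimplyConn)
    (hR : Subgroup.closure {r : R | ∃ x : V, r • x = x} = ⊤) : HasFree X R := by
  obtain ⟨w, hw⟩ := exists_w (Pool.Agent.Helper63.TD.coxF hM)
    (fun s => pn_eqv (quoT_tk' hN.toActsT' hN.tk (gir_quo' hN)) s) (gir_quo' hN) (quo_sch' hN hX hR)
  obtain ⟨lam, ph, hH⟩ := Pool.Agent.Helper63.TD.exists_htF hM
  exact hasFree' hN (free_edge' (fun s => pn_eqv
    (quoT_tk' hN.toActsT' hN.tk (gir_quo' hN)) s) (Pool.Agent.Helper63.TD.coxF hM) hH hw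
    (far_quo' hN))

/-- A group generated by elements with fixed vertices is in the class. -/
theorem gen_memT' (hN : NiceT' M X τ N R) (hM : TwoDim M) {C : ∀ (G : Type) [Group G], Prop}
    (hC : ExtClass C) (hX : X.SimplyConn)
    (hR : Subgroup.closure {r : R | ∃ x : V, r • x = x} = ⊤)
    {Q : Type} [Group Q] (f : R →* Q)
    (hQ : C Q) (hf : ∀ (v : V) (r : R), r • v = v → f r = 1 → r = 1) : C R :=
  mem_of_free (k := fun v => (τ v).card) hC hX hN.acts
    (fun g v => congrArg Finset.card (hN.inv g v)) (fun u v h => cn hN.tk h)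
    (nice_hasFree hN hM hX hR) fun K => ⟨Q, _, f, hQ, fun v _ g h1 h2 => hf v g h1 h2⟩

end

end Pool.Agent.Helper3.EV
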