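import Pool.Agent.Helper3.EV.Quo
import Pool.Agent.Helper3.TD.Gir

/-!
# Short circuits and fixed panels in quotients by groups with arbitrary stabilizers
-/

set_option autoImplicit false

namespace Pool.Agent.Helper3.EV

open Relation Pool.Agent.Helper3.FJ Pool.Agent.Helper3.FJ.Cpx Pool.Agent.Helper9.TD
  Pool.Agent.Helper3.LT Pool.Agent.Helper13.EV
open Pool.Agent.Helper3.TD (cn ne_of up_of_ch exists_pan pan_un res_un exists_res flag_tri res_eq
  pn_eqv tp_eq tp_even tp_add tp_ne tp_mat tp_mem al_gal gal_al gir_gal gir_of_even Ch pn_symm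
  exists_res_gal)

section

variable {S V : Type}

/-- The conditions on the action of the group `R`: stabilizers of edges are trivial or equal to the
stabilizers of both ends, and the nontrivial elements of the stabilizers of the residues move the
vertices of the links which they do not fix by more than `N`. -/
structure NiceT' (M : CoxeterMatrix S) (X : Cpx V) (τ : V → Finset S) (N : ℕ) (R : Type) [Group R]
    [MulAction R V] : Prop extends ActsT' R X τ where
  tk : TK M X τ
  bd : ∀ s t, 4 * M s t ≤ N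
  rigid : ∀ x y, X.adj x y → Cpx.Fx R x y → ∀ r : R, r • x = x → r • y = y
  far : ∀ (v : V) (r : R), r • v = v → (τ v).card = 2 → ∀ n ≤ N, ∀ y : ℕ → V,
    (∀ i < n, X.tri v (y i) (y (i + 1))) → (∀ i ≤ n, ¬ Cpx.Fx R v (y i)) → y n = r • y 0 → r = 1

variable {M : CoxeterMatrix S} {X : Cpx V} {τ : V → Finset S} {N : ℕ} {R : Type} [Group R]
  [MulAction R V] (hN : NiceT' M X τ N R)

/-- The chamber system of the quotient. -/
abbrev Pq' (hN : NiceT' M X τ N R) := Pn (quoT' hN.toActsT' hN.tk) (tq' hN.toActsT')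

/-- The action on the chambers. -/
def sm (g : R) (hA : ActsT' R X τ) (c : Ch τ) : Ch τ := ⟨g • c.1, by rw [hA.inv]; exact c.2⟩

theorem sm_pn' (g : R) (hA : ActsT' R X τ) {s : S} {c d : Ch τ} (h : Pn X τ s c d) :
    Pn X τ s (sm g hA c) (sm g hA d) := by
  obtain ⟨p, h1, h2, h3⟩ := h
  exact ⟨g • p, by rw [hA.inv]; exact h1, hA.acts.1 g _ _ h2, hA.acts.1 g _ _ h3⟩

/-- Lifting a gallery. -/
theorem exists_lift_gal' {s t : S} {g : ℕ → {v : QV R V // tq' hN.toActsT' v = ∅}}
    (h : ∀ i, Pq' hN (tp s t i) (g i) (g (i + 1))) (c₀ : Ch τ)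
    (hc₀ : (qv c₀.1 : QV R V) = (g 0).1) :
    ∃ c : ℕ → Ch τ, c 0 = c₀ ∧ (∀ i, Pn X τ (tp s t i) (c i) (c (i + 1))) ∧
      ∀ i, (qv (c i).1 : QV R V) = (g i).1 := by
  have hex : ∀ (i : ℕ) (c : {c : Ch τ // (qv c.1 : QV R V) = (g i).1}),
      ∃ d : {d : Ch τ // (qv d.1 : QV R V) = (g (i + 1)).1}, Pn X τ (tp s t i) c.1 d.1 := by
    intro i c
    obtain ⟨d, h1, h2⟩ := lift_pn' hN.toActsT' hN.tk (h i) c.1 c.2
    exact ⟨⟨d, h2⟩, h1⟩
  choose nx hnx using hex
  let Y : ∀ i : ℕ, {c : Ch τ // (qv c.1 : QV R V) = (g i).1} :=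
    fun i => Nat.rec ⟨c₀, hc₀⟩ (fun i c => nx i c) i
  exact ⟨fun i => (Y i).1, rfl, fun i => hnx i (Y i), fun i => (Y i).2⟩

include hN in
/-- Closed galleries of the quotient. -/
theorem gir_quo' : Gir M (Pq' hN) := by
  classical
  have hA := hN.toActsT'
  have hT := hN.tk
  refine gir_of_even (fun s => ?_) ?_
  · -- equivalence
    refine ⟨?_, fun h => pn_symm h, ?_⟩
    · rintro ⟨c, hc⟩
      obtain ⟨c, rfl⟩ := Quotient.exists_rep c
      obtain ⟨p, h1, h2⟩ := exists_pan hT (c := c) hc s
      exact ⟨qv p, h2, dn_adj' hA hT h1, dn_adj' hA hT h1⟩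
    · rintro ⟨c, hc⟩ ⟨d, hd⟩ ⟨e, he⟩ ⟨p, h1, h2, h3⟩ ⟨q, h4, h5, h6⟩
      obtain ⟨d, rfl⟩ := Quotient.exists_rep d
      obtain ⟨p, a1, rfl⟩ := lift_adj' hA hT h3
      obtain ⟨q, a2, rfl⟩ := lift_adj' hA hT h5
      have := pan_un hT (c := d) hd a1 a2 h1 h4
      subst this
      exact ⟨qv p, h1, h2, h6⟩
  · intro s t n g hst h0 hn he hg hc
    by_contra hlt
    push Not at hlt
    -- the periodic gallery
    have hnn : 0 < n := hn
    let G : ℕ → {v : QV R V // tq' hN.toActsT' v = ∅} := fun i => g (i % n)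
    have htp : ∀ i, tp s t (i % n) = tp s t i := fun i => tp_even (by
      have h1 := Nat.mod_add_div i n
      have h2 : (n * (i / n)) % 2 = 0 := by rw [Nat.mul_mod, he]; simp
      omega)
    have hG : ∀ i, Pq' hN (tp s t i) (G i) (G (i + 1)) ∧ G i ≠ G (i + 1) := by
      intro i
      have h1 := Nat.mod_lt i hn
      have h2 := hg (i % n) h1
      rw [htp] at h2
      have h3 : G (i + 1) = g (i % n + 1) := by
        change g ((i + 1) % n) = _
        by_cases h4 : i % n + 1 < n
        · rw [Nat.add_mod, Nat.mod_eq_of_lt (a := 1) (by omega), Nat.mod_eq_of_lt h4]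
        · have h5 : i % n + 1 = n := by omega
          rw [← Nat.mod_add_mod, h5, Nat.mod_self, hc]
      rw [h3]
      exact h2
    obtain ⟨c₀, hc₀⟩ : ∃ c₀ : V, (qv c₀ : QV R V) = (G 0).1 := Quotient.exists_rep _
    have hc₀' : τ c₀ = ∅ := by
      rw [← tq_mk' hA, hc₀]
      exact (G 0).2
    obtain ⟨b, hb0, hb1, hb2⟩ := exists_lift_gal' hN (fun i => (hG i).1) ⟨c₀, hc₀'⟩ hc₀
    -- the element ρ
    obtain ⟨ρ, hρ⟩ : ∃ ρ : R, ρ • (b 0).1 = (b n).1 := by
      refine (qv_eq R).1 ?_
      rw [hb2, hb2]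
      change (g (0 % n)).1 = (g (n % n)).1
      rw [Nat.zero_mod, Nat.mod_self]
    -- the periodic lift
    let c : ℕ → Ch τ := fun i => sm (ρ ^ (i / n)) hA (b (i % n))
    have hcn : ∀ i, c (i + n) = sm ρ hA (c i) := by
      intro i
      refine Subtype.ext ?_
      change ρ ^ ((i + n) / n) • (b ((i + n) % n)).1 = ρ • ρ ^ (i / n) • (b (i % n)).1
      rw [Nat.add_div_right _ hn, Nat.add_mod_right, pow_succ', mul_smul]
    have hc1 : ∀ i, Pn X τ (tp s t i) (c i) (c (i + 1)) := by
      intro i
      have h1 := Nat.mod_lt i hn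
      have h2 := sm_pn' (ρ ^ (i / n)) hA (hb1 (i % n))
      rw [htp] at h2
      have h3 : c (i + 1) = sm (ρ ^ (i / n)) hA (b (i % n + 1)) := by
        refine Subtype.ext ?_
        change ρ ^ ((i + 1) / n) • (b ((i + 1) % n)).1 = ρ ^ (i / n) • (b (i % n + 1)).1
        by_cases h4 : i % n + 1 < n
        · have e1 : (i + 1) % n = i % n + 1 := by
            rw [Nat.add_mod, Nat.mod_eq_of_lt (a := 1) (by omega), Nat.mod_eq_of_lt h4]
          have e2 : (i + 1) / n = i / n := by
            have h5 := Nat.div_add_mod i n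
            have h6 := Nat.div_add_mod (i + 1) n
            rw [e1] at h6
            have h7 : n * ((i + 1) / n) = n * (i / n) := by omega
            exact Nat.eq_of_mul_eq_mul_left hn h7
          rw [e1, e2]
        · have h5 : i % n + 1 = n := by omega
          have e1 : (i + 1) % n = 0 := by
            rw [← Nat.mod_add_mod, h5, Nat.mod_self]
          have e2 : (i + 1) / n = i / n + 1 := by
            have h5' := Nat.div_add_mod i n
            have h6 := Nat.div_add_mod (i + 1) n
            rw [e1] at h6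
            have h7 : n * ((i + 1) / n) = n * (i / n + 1) := by
              rw [mul_add, mul_one]
              omega
            exact Nat.eq_of_mul_eq_mul_left hn h7
          rw [e1, e2, h5, ← hρ, pow_succ, mul_smul]
      rw [h3]
      exact h2
    have hc2 : ∀ i, (qv (c i).1 : QV R V) = (G i).1 := by
      intro i
      change (qv (ρ ^ (i / n) • (b (i % n)).1) : QV R V) = _
      rw [qv_smul, hb2]
      change (g (i % n % n)).1 = (g (i % n)).1
      rw [Nat.mod_mod]
    have hne : ∀ i, c i ≠ c (i + 1) := by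
      intro i h
      refine (hG i).2 (Subtype.ext ?_)
      rw [← hc2, ← hc2, h]
    obtain ⟨r, p, hr, hcr, hp, hcp, hcp', ht1, ht2, hsub⟩ := exists_res_gal hst h0 hc1 hT
    -- ρ fixes the residue
    have hρr : ρ • r = r := by
      refine res_un hT (J := {s, t}) (c (0 + n)).2 ?_ (hcr (0 + n)) (by rw [hA.inv]; exact hr) hr
      rw [hcn 0]
      exact hA.acts.1 ρ _ _ (hcr 0)
    by_cases hρ1 : ρ = 1
    · -- the lift is closed
      have h1 := gir_gal hT.gir hst hn (g := c) (fun i _ => ⟨hc1 i, hne i⟩) (by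
        have := hcn 0
        rw [zero_add] at this
        rw [this]
        refine Subtype.ext ?_
        change ρ • (c 0).1 = (c 0).1
        rw [hρ1, one_smul])
      omega
    by_cases hfx : ∃ i, Cpx.Fx R r (p i)
    · -- rotate the gallery
      obtain ⟨i, hi⟩ := hfx
      have h1 : X.adj r (p i) := X.adj_symm _ _ (flag_tri hT (c i).2 (hcp i) (hcr i) (hsub i)).2
      have h2 : ρ • p i = p i := hN.rigid _ _ h1 hi ρ hρr
      have h3 := gir_gal hT.gir (tp_ne hst (i + 1)) hn
        (g := fun j => if j = n then c (i + 1) else c (i + 1 + j)) (fun j hj => ?_) (by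
          simp only [if_pos]
          rw [if_neg (show (0 : ℕ) ≠ n by omega), add_zero])
      · rw [tp_mat] at h3
        omega
      · rw [← tp_add]
        by_cases h4 : j + 1 = n
        · simp only [if_neg (show j ≠ n by omega), if_pos h4]
          have e1 : i + 1 + j = i + n := by omega
          rw [e1, hcn]
          refine ⟨⟨p i, ?_, ?_, hcp' i⟩, fun h5 => ?_⟩
          · rw [hp]
            congr 1
            exact tp_even (by omega)
          · rw [← h2]
            exact hA.acts.1 ρ _ _ (hcp i)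
          · refine (hG i).2 (Subtype.ext ?_)
            rw [← hc2, ← hc2, ← h5]
            exact (qv_smul _ _).symm
        · simp only [if_neg (show j ≠ n by omega), if_neg h4]
          exact ⟨hc1 _, hne _⟩
    · push Not at hfx
      -- no panel is fixed
      refine hρ1 (hN.far r ρ hρr (by rw [hr, Finset.card_pair hst]) (2 * n) ?_
        (fun j => if j % 2 = 0 then (c (j / 2)).1 else p (j / 2)) (fun j _ => ?_)
        (fun j _ => ?_) ?_)
      · have := hN.bd s t
        omega
      · rcases Nat.mod_two_eq_zero_or_one j with h1 | h1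
        · simp only [if_pos h1, if_neg (show ¬ (j + 1) % 2 = 0 by omega),
            show (j + 1) / 2 = j / 2 by omega]
          exact ht1 _
        · simp only [if_neg (show ¬ j % 2 = 0 by omega), if_pos (show (j + 1) % 2 = 0 by omega),
            show (j + 1) / 2 = j / 2 + 1 by omega]
          exact ht2 _
      · split_ifs with h1
        · rintro ⟨γ, h2, h3, h4⟩
          exact hfx (j / 2) ⟨γ, h2, h3, fix_up' hT hA (hcp (j / 2))
            (up_of_ch hT (c (j / 2)).2 (hcp (j / 2))) h4⟩
        · exact hfx _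
      · simp only [show 2 * n % 2 = 0 by omega, show 2 * n / 2 = n by omega, Nat.zero_mod,
          Nat.zero_div, if_true]
        have := hcn 0
        rw [zero_add] at this
        rw [this]
        rfl

/-- The panel of type `s` of `c` is fixed, `c` is not fixed. -/
def FP' (s : S) (c : {v : QV R V // tq' hN.toActsT' v = ∅}) : Prop :=
  (∃ p, tq' hN.toActsT' p = {s} ∧ (quoT' hN.toActsT' hN.tk).adj c.1 p ∧ FX (V := V) (R := R) p) ∧
    ¬ FX (V := V) (R := R) c.1

/-- Two fixed panels are not close. -/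
theorem far_quo' (s t : S) (n : ℕ) (c d : {v : QV R V // tq' hN.toActsT' v = ∅}) (hst : s ≠ t)
    (h0 : M s t ≠ 0) (hal : Al (Pq' hN) s t n c d) (hFc : FP' hN t c)
    (hFd : FP' hN (tp s t n) d) : M s t ≤ n + 1 := by
  classical
  have hA := hN.toActsT'
  have hT := hN.tk
  obtain ⟨hFc, hcf⟩ := hFc
  obtain ⟨hFd, hdf⟩ := hFd
  · obtain ⟨g, h1, h2, h3⟩ := al_gal hal
    -- make the gallery infinite by repeating the last chamber
    obtain ⟨c₀, hc₀⟩ : ∃ c₀ : V, (qv c₀ : QV R V) = (g 0).1 := Quotient.exists_rep _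
    have hc₀' : τ c₀ = ∅ := by
      rw [← tq_mk' hA, hc₀]
      exact (g 0).2
    have hrefl : ∀ (s : S) (e : {v : QV R V // tq' hN.toActsT' v = ∅}), Pq' hN s e e := by
      rintro s ⟨e, he⟩
      obtain ⟨e, rfl⟩ := Quotient.exists_rep e
      obtain ⟨p, a1, a2⟩ := exists_pan hT (c := e) he s
      exact ⟨qv p, a2, dn_adj' hA hT a1, dn_adj' hA hT a1⟩
    obtain ⟨b, hb0, hb1, hb2⟩ := exists_lift_gal' hN (s := s) (t := t)
      (g := fun i => g (min i n)) (fun i => by
        by_cases hi : i < n
        · rw [min_eq_left (by omega), min_eq_left (by omega)]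
          exact (h3 i hi).1
        · rw [min_eq_right (by omega), min_eq_right (by omega)]
          exact hrefl _ _) ⟨c₀, hc₀'⟩ (by rw [Nat.zero_min]; exact hc₀)
    obtain ⟨r, p, hr, hcr, hp, hcp, hcp', ht1, ht2, hsub⟩ := exists_res_gal hst h0 hb1 hT
    -- the first fixed panel
    obtain ⟨p₀, a1, a2, a3⟩ := hFc
    have e0 : (qv (b 0).1 : QV R V) = c.1 := by
      rw [hb2, Nat.zero_min, h1]
    rw [← e0] at a2
    obtain ⟨p₀, a4, rfl⟩ := lift_adj' hA hT a2
    obtain ⟨ρ, hρ1, hρ2⟩ := a3.any rfl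
    have hsub0 : τ p₀ ⊂ τ r := by
      have a5 : τ p₀ = {t} := a1
      rw [a5, hr]
      refine Finset.ssubset_iff_subset_ne.2 ⟨by simp, ?_⟩
      intro h
      have := congrArg Finset.card h
      rw [Finset.card_singleton, Finset.card_pair hst] at this
      exact absurd this (by norm_num)
    have a6 := (flag_tri hT (b 0).2 a4 (hcr 0) hsub0).2
    have hρr := fix_up' hT hA a6 hsub0 hρ2
    -- the last fixed panel
    obtain ⟨q, b1, b2, b3⟩ := hFd
    have en : (qv (b n).1 : QV R V) = d.1 := by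
      rw [hb2, min_self, h2]
    rw [← en] at b2
    obtain ⟨q, b4, rfl⟩ := lift_adj' hA hT b2
    have hq : q = p n := pan_un hT (b n).2 b4 (hcp n) b1 (hp n)
    subst hq
    obtain ⟨ρ', hρ3, hρ4⟩ := b3.any rfl
    have b5 := (flag_tri hT (b n).2 (hcp n) (hcr n) (hsub n)).2
    have hρr' := fix_up' hT hA b5 (hsub n) hρ4
    have hρq : ρ • p n = p n :=
      hN.rigid _ _ (X.adj_symm _ _ b5) ⟨ρ', hρ3, hρr', hρ4⟩ ρ hρr
    have hfree0 : b 0 ≠ sm ρ hA (b 0) := by
      intro he
      refine hcf ?_
      rw [← e0]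
      exact FX.mk hρ1 (congrArg Subtype.val he).symm
    have hfreen : b n ≠ sm ρ hA (b n) := by
      intro he
      refine hdf ?_
      rw [← en]
      exact FX.mk hρ1 (congrArg Subtype.val he).symm
    have hbne : ∀ i < n, b i ≠ b (i + 1) := by
      intro i hi h
      refine (h3 i hi).2 (Subtype.ext ?_)
      have e1 := hb2 i
      have e2 := hb2 (i + 1)
      rw [min_eq_left (by omega)] at e1
      rw [min_eq_left (by omega)] at e2
      rw [← e1, ← e2, h]
    -- the closed gallery
    have h4 := gir_gal hT.gir hst (n := 2 * (n + 1)) (by omega)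
      (g := fun j => if j ≤ n then b j else if j ≤ 2 * n + 1 then sm ρ hA (b (2 * n + 1 - j))
        else b 0) (fun j hj => ?_) (by
          beta_reduce
          rw [if_neg (show ¬ 2 * (n + 1) ≤ n by omega),
            if_neg (show ¬ 2 * (n + 1) ≤ 2 * n + 1 by omega), if_pos (Nat.zero_le _)])
    · omega
    · rcases lt_trichotomy j n with h5 | h5 | h5
      · beta_reduce
        rw [if_pos (show j ≤ n by omega), if_pos (show j + 1 ≤ n by omega)]
        exact ⟨hb1 j, hbne j h5⟩
      · subst h5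
        beta_reduce
        rw [if_pos le_rfl, if_neg (show ¬ j + 1 ≤ j by omega),
          if_pos (show j + 1 ≤ 2 * j + 1 by omega), show 2 * j + 1 - (j + 1) = j by omega]
        refine ⟨⟨p j, hp j, hcp j, ?_⟩, hfreen⟩
        rw [← hρq]
        exact hA.acts.1 ρ _ _ (hcp j)
      · beta_reduce
        rw [if_neg (show ¬ j ≤ n by omega), if_pos (show j ≤ 2 * n + 1 by omega),
          if_neg (show ¬ j + 1 ≤ n by omega)]
        by_cases h6 : j = 2 * n + 1
        · subst h6
          rw [if_neg (by omega), Nat.sub_self]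
          refine ⟨⟨p₀, ?_, ?_, a4⟩, fun h => hfree0 h.symm⟩
          · rw [tp_eq, if_neg (by omega)]
            exact a1
          · rw [← hρ2]
            exact hA.acts.1 ρ _ _ a4
        · rw [if_pos (show j + 1 ≤ 2 * n + 1 by omega)]
          obtain ⟨i, hi⟩ : ∃ i, 2 * n + 1 - j = i + 1 := ⟨2 * n - j, by omega⟩
          rw [hi, show 2 * n + 1 - (j + 1) = i by omega]
          refine ⟨?_, fun h => hbne i (by omega) ?_⟩
          · have h7 := sm_pn' ρ hA (hb1 i)
            rw [tp_even (m := j) (n := i) (by omega)]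
            exact pn_symm h7
          · have h8 : ρ • (b (i + 1)).1 = ρ • (b i).1 := congrArg Subtype.val h
            exact Subtype.ext (smul_left_cancel ρ h8).symm

end

end Pool.Agent.Helper3.EV
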