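import Pool.Agent.Helper3.TD.Quo
import Pool.Agent.Helper13.EV.Defs

/-!
# Quotients of typed complexes by groups with arbitrary stabilizers
-/

set_option autoImplicit false

namespace Pool.Agent.Helper3.EV

open Relation Pool.Agent.Helper3.FJ Pool.Agent.Helper3.FJ.Cpx Pool.Agent.Helper9.TD
  Pool.Agent.Helper13.EV
open Pool.Agent.Helper3.TD (cn ne_of up_of_ch exists_pan pan_un res_un exists_res flag_tri res_eq
  pn_eqv)

section

variable {S V : Type} {M : CoxeterMatrix S} {X : Cpx V} {τ : V → Finset S}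

/-! ### Actions -/

variable {R : Type} [Group R] [MulAction R V]

/-- Elements which fix a vertex fix the adjacent vertices of larger type. -/
theorem fix_up' (hT : TK M X τ) (hA : ActsT' R X τ) {x y : V} (h : X.adj x y) (hk : τ x ⊂ τ y)
    {r : R} (hr : r • x = x) : r • y = y := by
  refine hT.un x _ _ ?_ h ?_ (hA.inv r y)
  · have := hA.acts.1 r _ _ h
    rwa [hr] at this
  · rw [hA.inv]
    exact hk

/-- The types of the quotient. -/
def tq' (hA : ActsT' R X τ) : QV R V → Finset S :=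
  Quotient.lift (s := vS R V) τ (by
    rintro x y ⟨g, rfl⟩
    exact (hA.inv g x).symm)

theorem tq_mk' (hA : ActsT' R X τ) (x : V) : tq' hA (qv x) = τ x := rfl

theorem t_eq' (hA : ActsT' R X τ) {x y : V} (h : (qv x : QV R V) = qv y) : τ x = τ y := by
  rw [← tq_mk' hA, h, tq_mk']

theorem qv_smul (g : R) (x : V) : (qv (g • x) : QV R V) = qv x := ((qv_eq R).2 ⟨g, rfl⟩).symm

/-- The quotient. -/
def quoT' (hA : ActsT' R X τ) (hT : TK M X τ) : Cpx (QV R V) where
  adj u v := ∃ x y, X.adj x y ∧ qv x = u ∧ qv y = v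
  tri u v w := ∃ x y z, X.tri x y z ∧ qv x = u ∧ qv y = v ∧ qv z = w
  adj_symm := by
    rintro u v ⟨x, y, h, h1, h2⟩
    exact ⟨y, x, X.adj_symm _ _ h, h2, h1⟩
  adj_irrefl := by
    rintro u ⟨x, y, h, h1, h2⟩
    exact ne_of hT h (t_eq' hA (h1.trans h2.symm))
  tri_rot := by
    rintro u v w ⟨x, y, z, h, h1, h2, h3⟩
    exact ⟨y, z, x, X.tri_rot _ _ _ h, h2, h3, h1⟩
  tri_flip := by
    rintro u v w ⟨x, y, z, h, h1, h2, h3⟩
    exact ⟨y, x, z, X.tri_flip _ _ _ h, h2, h1, h3⟩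
  tri_adj := by
    rintro u v w ⟨x, y, z, h, h1, h2, h3⟩
    exact ⟨x, y, X.tri_adj _ _ _ h, h1, h2⟩

/-- The quotient is simply connected. -/
theorem quoT_simplyConn' (hA : ActsT' R X τ) (hT : TK M X τ)
    (hX : X.SimplyConn) (hR : Subgroup.closure {r : R | ∃ x : V, r • x = x} = ⊤) :
    (quoT' hA hT).SimplyConn := by
  obtain ⟨⟨v₀⟩, hconn, hsc⟩ := hX
  refine ⟨⟨qv v₀⟩, ?_, ?_⟩
  · intro u v
    obtain ⟨x, rfl⟩ := Quotient.exists_rep u
    obtain ⟨y, rfl⟩ := Quotient.exists_rep v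
    have := hconn x y
    induction this with
    | refl => exact ReflTransGen.refl
    | tail _ h4 ih => exact ih.tail ⟨_, _, h4, rfl, rfl⟩
  · intro H _ c hc
    let c' : V → V → H := fun x y => c (qv x) (qv y)
    have hcoc : X.Cocycle c' := ⟨fun u v h => hc.1 _ _ ⟨u, v, h, rfl, rfl⟩,
      fun u v w h => hc.2 _ _ _ ⟨u, v, w, h, rfl, rfl, rfl⟩⟩
    obtain ⟨g, hg⟩ := hsc H c' hcoc
    have inv : ∀ (r : R) (x y : V), g (r • x) * (g x)⁻¹ = g (r • y) * (g y)⁻¹ := by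
      intro r x y
      have := hconn x y
      induction this with
      | refl => rfl
      | @tail b e _ h4 ih =>
        rw [ih]
        have e1 := hg _ _ h4
        have e2 := hg _ _ (hA.acts.1 r _ _ h4)
        simp only [c', qv_smul] at e1 e2
        rw [e1] at e2
        have e3 : g e = g b * ((g b)⁻¹ * g e) := by group
        rw [e3, e2]
        group
    let S : Subgroup R :=
      { carrier := {r | ∀ x, g (r • x) = g x}
        one_mem' := fun x => by rw [one_smul]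
        mul_mem' := fun {a b} ha hb x => by rw [mul_smul, ha, hb]
        inv_mem' := fun {a} ha x => by
          have := ha (a⁻¹ • x)
          rwa [smul_inv_smul, eq_comm] at this }
    have hS : S = ⊤ := by
      rw [eq_top_iff, ← hR, Subgroup.closure_le]
      rintro r ⟨x, hx⟩ y
      have := inv r x y
      rw [hx, mul_inv_cancel, eq_comm, mul_inv_eq_one] at this
      exact this
    let g' : QV R V → H := Quotient.lift (s := vS R V) g (by
      rintro x y ⟨r, rfl⟩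
      have : r ∈ S := by rw [hS]; trivial
      exact (this x).symm)
    refine ⟨g', ?_⟩
    rintro u v ⟨x, y, h, rfl, rfl⟩
    exact hg _ _ h

section lifts

variable (hA : ActsT' R X τ) (hT : TK M X τ)

theorem dn_adj' {x y : V} (h : X.adj x y) : (quoT' hA hT).adj (qv x) (qv y) := ⟨x, y, h, rfl, rfl⟩

theorem dn_tri' {x y z : V} (h : X.tri x y z) : (quoT' hA hT).tri (qv x) (qv y) (qv z) :=
  ⟨x, y, z, h, rfl, rfl, rfl⟩

/-- Lifting an adjacent vertex. -/
theorem lift_adj' {x : V} {v : QV R V} (h : (quoT' hA hT).adj (qv x) v) :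
    ∃ y, X.adj x y ∧ qv y = v := by
  obtain ⟨x', y', h1, h2, h3⟩ := h
  obtain ⟨g, hg⟩ := (qv_eq R).1 h2
  refine ⟨g • y', ?_, ?_⟩
  · rw [← hg]
    exact hA.acts.1 g _ _ h1
  · rw [← h3]
    exact qv_smul _ _

include hA hT in
/-- Adjacent vertices of larger type in one orbit are equal. -/
theorem typ_eq' {x y z : V} (h1 : X.adj x y) (h2 : X.adj x z) (h3 : τ x ⊂ τ y)
    (h4 : (qv y : QV R V) = qv z) : y = z :=
  hT.un x y z h1 h2 h3 (t_eq' hA h4)

/-- Lifting a chamber in a panel. -/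
theorem lift_pn' {s : S} {c d : {v : QV R V // tq' hA v = ∅}} (h : Pn (quoT' hA hT) (tq' hA) s c d)
    (c' : {v : V // τ v = ∅}) (hc : (qv c'.1 : QV R V) = c.1) :
    ∃ d' : {v : V // τ v = ∅}, Pn X τ s c' d' ∧ (qv d'.1 : QV R V) = d.1 := by
  obtain ⟨p, h1, h2, h3⟩ := h
  rw [← hc] at h2
  obtain ⟨p', h4, rfl⟩ := lift_adj' hA hT h2
  obtain ⟨d', h5, h6⟩ := lift_adj' hA hT ((quoT' hA hT).adj_symm _ _ h3)
  refine ⟨⟨d', ?_⟩, ⟨p', h1, h4, X.adj_symm _ _ h5⟩, h6⟩
  rw [← tq_mk' hA, h6]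
  exact d.2

/-- The quotient is a typed complex, if its residues have no short circuits. -/
theorem quoT_tk' (hG : Gir M (Pn (quoT' hA hT) (tq' hA))) : TK M (quoT' hA hT) (tq' hA) := by
  refine ⟨?_, ?_, ?_, ?_, ?_, ?_, ?_, ?_, hG⟩
  · intro v
    obtain ⟨v, rfl⟩ := Quotient.exists_rep v
    exact hT.two v
  · intro v
    obtain ⟨v, rfl⟩ := Quotient.exists_rep v
    exact hT.sph v
  · rintro u v ⟨x, y, h, rfl, rfl⟩
    exact hT.sub x y h
  · intro v
    obtain ⟨v, rfl⟩ := Quotient.exists_rep v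
    intro hv
    obtain ⟨c, h1, h2⟩ := hT.ch v hv
    exact ⟨qv c, h1, dn_adj' hA hT h2⟩
  · intro c
    obtain ⟨c, rfl⟩ := Quotient.exists_rep c
    intro J h1 h2 h3 h4
    obtain ⟨v, h5, h6⟩ := hT.up c J h1 h2 h3 h4
    exact ⟨qv v, dn_adj' hA hT h5, h6⟩
  · intro u v v' h1 h2 h3 h4
    obtain ⟨u, rfl⟩ := Quotient.exists_rep u
    obtain ⟨y, h5, rfl⟩ := lift_adj' hA hT h1
    obtain ⟨y', h6, rfl⟩ := lift_adj' hA hT h2
    rw [hT.un u y y' h5 h6 h3 h4]
  · intro u v w h1 h2 h3 h4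
    obtain ⟨v, rfl⟩ := Quotient.exists_rep v
    obtain ⟨x, h5, rfl⟩ := lift_adj' hA hT ((quoT' hA hT).adj_symm _ _ h1)
    obtain ⟨z, h6, rfl⟩ := lift_adj' hA hT h2
    exact dn_tri' hA hT (hT.tri x v z (X.adj_symm _ _ h5) h6 h3 h4)
  · intro c p r h1 h2 h3 h4
    obtain ⟨c, rfl⟩ := Quotient.exists_rep c
    obtain ⟨p, h5, rfl⟩ := lift_adj' hA hT h2
    obtain ⟨r, h6, rfl⟩ := lift_adj' hA hT h3
    exact dn_tri' hA hT (hT.flag c p r h1 h5 h6 h4)

end lifts

end

end Pool.Agent.Helper3.EV
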